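import Pool.Agent.Work.MP_7cb3ca_co.Sm.D.Sb

/-! Checks. -/

set_option maxRecDepth 100000

namespace Pool.Agent.Work.MP_7cb3ca_co.Sm.D

noncomputable section

theorem cb20_1_0 : chk 20 1 0x0 0x1 t20_1 s20_2 b20_1_0 = true := by
  decide +kernel
theorem cb20_2_0 : chk 20 2 0x1 0x3 t20_2 s20_3 b20_2_0 = true := by
  decide +kernel
theorem cb20_3_0 : chk 20 3 0x3 0x100007 t20_3 s20_4 b20_3_0 = true := by
  decide +kernel
theorem cb20_4_0 : chk 20 4 0x100007 0x30000f t20_4 s20_5 b20_4_0 = true := by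
  decide +kernel
theorem cb20_5_0 : chk 20 5 0x30000f 0x1000070001f t20_5 s20_6 b20_5_0 = true := by
  decide +kernel
theorem cb20_6_0 : chk 20 6 0x1000070001f 0x30000f0003f t20_6 s20_7 b20_6_0 = true := by
  decide +kernel
theorem cb20_7_0 : chk 20 7 0x30000f0003f 0x1000070001f0007f t20_7 s20_8 b20_7_0 = true := by
  decide +kernel
theorem cb20_8_0 : chk 20 8 0x1000070001f0007f 0x30000f0003f000ff t20_8 s20_9 b20_8_0 = true := by
  decide +kernel
theorem cb20_9_0 : chk 20 9 0x30000f0003f000ff 0x1000070001f0007f001ff t20_9 s20_10 b20_9_0 = true := by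
  decide +kernel
theorem cb20_10_0 : chk 20 10 0x1000070001f0007f001ff 0x30000f0003f000ff003ff t20_10 s20_11 b20_10_0 = true := by
  decide +kernel
theorem cb20_11_0 : chk 20 11 0x30000f0003f000ff003ff 0x1000070001f0007f001ff007ff t20_11 s20_12 b20_11_0 = true := by
  decide +kernel
theorem cb20_12_0 : chk 20 12 0x1000070001f0007f001ff007ff 0x30000f0003f000ff003ff00fff t20_12 s20_13 b20_12_0 = true := by
  decide +kernel
theorem cb20_12_1 : chk 20 12 0x1000070001f0007f001ff007ff 0x30000f0003f000ff003ff00fff t20_12 s20_13 b20_12_1 = true := by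
  decide +kernel

end

end Pool.Agent.Work.MP_7cb3ca_co.Sm.D
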