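import Pool.Agent.Work.MP_7cb3ca_co.Sm.D.Sb

/-! Checks. -/

set_option maxRecDepth 100000

namespace Pool.Agent.Work.MP_7cb3ca_co.Sm.D

noncomputable section

theorem cb20_13_0 : chk 20 13 0x30000f0003f000ff003ff00fff 0x1000070001f0007f001ff007ff01fff t20_13 s20_14 b20_13_0 = true := by
  decide +kernel
theorem cb20_13_1 : chk 20 13 0x30000f0003f000ff003ff00fff 0x1000070001f0007f001ff007ff01fff t20_13 s20_14 b20_13_1 = true := by
  decide +kernel
theorem cb20_13_2 : chk 20 13 0x30000f0003f000ff003ff00fff 0x1000070001f0007f001ff007ff01fff t20_13 s20_14 b20_13_2 = true := by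
  decide +kernel

end

end Pool.Agent.Work.MP_7cb3ca_co.Sm.D
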