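import Pool.Agent.Work.MP_7cb3ca_co.Sm.D.Sb

/-! Checks. -/

set_option maxRecDepth 100000

namespace Pool.Agent.Work.MP_7cb3ca_co.Sm.D

noncomputable section

theorem cb20_15_6 : chk 20 15 0x30000f0003f000ff003ff00fff03fff 0x1000070001f0007f001ff007ff01fff07fff t20_15 s20_16 b20_15_6 = true := by
  decide +kernel
theorem cb20_15_7 : chk 20 15 0x30000f0003f000ff003ff00fff03fff 0x1000070001f0007f001ff007ff01fff07fff t20_15 s20_16 b20_15_7 = true := by
  decide +kernel

end

end Pool.Agent.Work.MP_7cb3ca_co.Sm.D
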