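import Pool.Agent.Work.MP_7cb3ca_co.Sm.D.Sb

/-! Checks. -/

set_option maxRecDepth 100000

namespace Pool.Agent.Work.MP_7cb3ca_co.Sm.D

noncomputable section

theorem cb20_18_0 : chk 20 18 0x1000070001f0007f001ff007ff01fff07fff1ffff 0x30000f0003f000ff003ff00fff03fff0ffff3ffff t20_18 s20_19 b20_18_0 = true := by
  decide +kernel
theorem cb20_18_1 : chk 20 18 0x1000070001f0007f001ff007ff01fff07fff1ffff 0x30000f0003f000ff003ff00fff03fff0ffff3ffff t20_18 s20_19 b20_18_1 = true := by
  decide +kernel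
theorem cb20_18_2 : chk 20 18 0x1000070001f0007f001ff007ff01fff07fff1ffff 0x30000f0003f000ff003ff00fff03fff0ffff3ffff t20_18 s20_19 b20_18_2 = true := by
  decide +kernel
theorem cb20_18_3 : chk 20 18 0x1000070001f0007f001ff007ff01fff07fff1ffff 0x30000f0003f000ff003ff00fff03fff0ffff3ffff t20_18 s20_19 b20_18_3 = true := by
  decide +kernel
theorem cb20_19_0 : chk 20 19 0x30000f0003f000ff003ff00fff03fff0ffff3ffff (2 ^ (20 * (20 / 2)) - 1) t20_19 s20_20 b20_19_0 = true := by
  decide +kernel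

end

end Pool.Agent.Work.MP_7cb3ca_co.Sm.D
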