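import Pool.Agent.Work.MP_7cb3ca_co.Sm.Sound
import Pool.Agent.Work.MP_7cb3ca_co.Sm.D.Kb_0_0
import Pool.Agent.Work.MP_7cb3ca_co.Sm.D.Kb_0_1
import Pool.Agent.Work.MP_7cb3ca_co.Sm.D.Kb_0_2
import Pool.Agent.Work.MP_7cb3ca_co.Sm.D.Kb_0_3
import Pool.Agent.Work.MP_7cb3ca_co.Sm.D.Kb_1_0
import Pool.Agent.Work.MP_7cb3ca_co.Sm.D.Kb_1_1
import Pool.Agent.Work.MP_7cb3ca_co.Sm.D.Kb_1_2
import Pool.Agent.Work.MP_7cb3ca_co.Sm.D.Kb_1_3
import Pool.Agent.Work.MP_7cb3ca_co.Sm.D.Kb_2_0
import Pool.Agent.Work.MP_7cb3ca_co.Sm.D.Kb_2_1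
import Pool.Agent.Work.MP_7cb3ca_co.Sm.D.Kb_2_2
import Pool.Agent.Work.MP_7cb3ca_co.Sm.D.Kb_2_3
import Pool.Agent.Work.MP_7cb3ca_co.Sm.D.Kb_3_0
import Pool.Agent.Work.MP_7cb3ca_co.Sm.D.Kb_3_1
import Pool.Agent.Work.MP_7cb3ca_co.Sm.D.Kb_3_2

/-! Short cycles. -/

set_option maxRecDepth 100000

namespace Pool.Agent.Work.MP_7cb3ca_co.Sm.D

noncomputable section

theorem all_nodeb {P : Nat → Prop} {l r : BT} (h1 : l.all P) (h2 : r.all P) : (BT.node l r).all P := ⟨h1, h2⟩

theorem w20_20 : s20_20.all (Win 20 20 (2 ^ (20 * (20 / 2)) - 1)) := win_last 20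
theorem w20_19 : s20_19.all (Win 20 19 0x30000f0003f000ff003ff00fff03fff0ffff3ffff) :=
  (chk_spec (by decide) (by decide) u20_19 w20_20 _ cb20_19_0)
theorem w20_18 : s20_18.all (Win 20 18 0x1000070001f0007f001ff007ff01fff07fff1ffff) :=
  (all_nodeb (all_nodeb (chk_spec (by decide) (by decide) u20_18 w20_19 _ cb20_18_0)
    (chk_spec (by decide) (by decide) u20_18 w20_19 _ cb20_18_1))
    (all_nodeb (chk_spec (by decide) (by decide) u20_18 w20_19 _ cb20_18_2)
    (chk_spec (by decide) (by decide) u20_18 w20_19 _ cb20_18_3)))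
theorem w20_17 : s20_17.all (Win 20 17 0x30000f0003f000ff003ff00fff03fff0ffff) :=
  (all_nodeb (all_nodeb (all_nodeb (chk_spec (by decide) (by decide) u20_17 w20_18 _ cb20_17_0)
    (chk_spec (by decide) (by decide) u20_17 w20_18 _ cb20_17_1))
    (all_nodeb (chk_spec (by decide) (by decide) u20_17 w20_18 _ cb20_17_2)
    (chk_spec (by decide) (by decide) u20_17 w20_18 _ cb20_17_3)))
    (all_nodeb (all_nodeb (chk_spec (by decide) (by decide) u20_17 w20_18 _ cb20_17_4)
    (chk_spec (by decide) (by decide) u20_17 w20_18 _ cb20_17_5))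
    (all_nodeb (chk_spec (by decide) (by decide) u20_17 w20_18 _ cb20_17_6)
    (chk_spec (by decide) (by decide) u20_17 w20_18 _ cb20_17_7))))
theorem w20_16 : s20_16.all (Win 20 16 0x1000070001f0007f001ff007ff01fff07fff) :=
  (all_nodeb (all_nodeb (all_nodeb (chk_spec (by decide) (by decide) u20_16 w20_17 _ cb20_16_0)
    (chk_spec (by decide) (by decide) u20_16 w20_17 _ cb20_16_1))
    (all_nodeb (chk_spec (by decide) (by decide) u20_16 w20_17 _ cb20_16_2)
    (chk_spec (by decide) (by decide) u20_16 w20_17 _ cb20_16_3)))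
    (all_nodeb (all_nodeb (chk_spec (by decide) (by decide) u20_16 w20_17 _ cb20_16_4)
    (chk_spec (by decide) (by decide) u20_16 w20_17 _ cb20_16_5))
    (all_nodeb (chk_spec (by decide) (by decide) u20_16 w20_17 _ cb20_16_6)
    (chk_spec (by decide) (by decide) u20_16 w20_17 _ cb20_16_7))))
theorem w20_15 : s20_15.all (Win 20 15 0x30000f0003f000ff003ff00fff03fff) :=
  (all_nodeb (all_nodeb (all_nodeb (chk_spec (by decide) (by decide) u20_15 w20_16 _ cb20_15_0)
    (chk_spec (by decide) (by decide) u20_15 w20_16 _ cb20_15_1))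
    (all_nodeb (chk_spec (by decide) (by decide) u20_15 w20_16 _ cb20_15_2)
    (chk_spec (by decide) (by decide) u20_15 w20_16 _ cb20_15_3)))
    (all_nodeb (all_nodeb (chk_spec (by decide) (by decide) u20_15 w20_16 _ cb20_15_4)
    (chk_spec (by decide) (by decide) u20_15 w20_16 _ cb20_15_5))
    (all_nodeb (chk_spec (by decide) (by decide) u20_15 w20_16 _ cb20_15_6)
    (chk_spec (by decide) (by decide) u20_15 w20_16 _ cb20_15_7))))
theorem w20_14 : s20_14.all (Win 20 14 0x1000070001f0007f001ff007ff01fff) :=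
  (all_nodeb (all_nodeb (all_nodeb (chk_spec (by decide) (by decide) u20_14 w20_15 _ cb20_14_0)
    (chk_spec (by decide) (by decide) u20_14 w20_15 _ cb20_14_1))
    (all_nodeb (chk_spec (by decide) (by decide) u20_14 w20_15 _ cb20_14_2)
    (chk_spec (by decide) (by decide) u20_14 w20_15 _ cb20_14_3)))
    (all_nodeb (all_nodeb (chk_spec (by decide) (by decide) u20_14 w20_15 _ cb20_14_4)
    (chk_spec (by decide) (by decide) u20_14 w20_15 _ cb20_14_5))
    (all_nodeb (chk_spec (by decide) (by decide) u20_14 w20_15 _ cb20_14_6)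
    (chk_spec (by decide) (by decide) u20_14 w20_15 _ cb20_14_7))))
theorem w20_13 : s20_13.all (Win 20 13 0x30000f0003f000ff003ff00fff) :=
  (all_nodeb (all_nodeb (chk_spec (by decide) (by decide) u20_13 w20_14 _ cb20_13_0)
    (chk_spec (by decide) (by decide) u20_13 w20_14 _ cb20_13_1))
    (all_nodeb (chk_spec (by decide) (by decide) u20_13 w20_14 _ cb20_13_2)
    (chk_spec (by decide) (by decide) u20_13 w20_14 _ cb20_13_3)))
theorem w20_12 : s20_12.all (Win 20 12 0x1000070001f0007f001ff007ff) :=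
  (all_nodeb (chk_spec (by decide) (by decide) u20_12 w20_13 _ cb20_12_0)
    (chk_spec (by decide) (by decide) u20_12 w20_13 _ cb20_12_1))
theorem w20_11 : s20_11.all (Win 20 11 0x30000f0003f000ff003ff) :=
  (chk_spec (by decide) (by decide) u20_11 w20_12 _ cb20_11_0)
theorem w20_10 : s20_10.all (Win 20 10 0x1000070001f0007f001ff) :=
  (chk_spec (by decide) (by decide) u20_10 w20_11 _ cb20_10_0)
theorem w20_9 : s20_9.all (Win 20 9 0x30000f0003f000ff) :=
  (chk_spec (by decide) (by decide) u20_9 w20_10 _ cb20_9_0)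
theorem w20_8 : s20_8.all (Win 20 8 0x1000070001f0007f) :=
  (chk_spec (by decide) (by decide) u20_8 w20_9 _ cb20_8_0)
theorem w20_7 : s20_7.all (Win 20 7 0x30000f0003f) :=
  (chk_spec (by decide) (by decide) u20_7 w20_8 _ cb20_7_0)
theorem w20_6 : s20_6.all (Win 20 6 0x1000070001f) :=
  (chk_spec (by decide) (by decide) u20_6 w20_7 _ cb20_6_0)
theorem w20_5 : s20_5.all (Win 20 5 0x30000f) :=
  (chk_spec (by decide) (by decide) u20_5 w20_6 _ cb20_5_0)
theorem w20_4 : s20_4.all (Win 20 4 0x100007) :=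
  (chk_spec (by decide) (by decide) u20_4 w20_5 _ cb20_4_0)
theorem w20_3 : s20_3.all (Win 20 3 0x3) :=
  (chk_spec (by decide) (by decide) u20_3 w20_4 _ cb20_3_0)
theorem w20_2 : s20_2.all (Win 20 2 0x1) :=
  (chk_spec (by decide) (by decide) u20_2 w20_3 _ cb20_2_0)
theorem w20_1 : s20_1.all (Win 20 1 0x0) :=
  (chk_spec (by decide) (by decide) u20_1 w20_2 _ cb20_1_0)
theorem short20 : Short 20 := short_of w20_1

end

end Pool.Agent.Work.MP_7cb3ca_co.Sm.D
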