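import Pool.Agent.Work.MP_7cb3ca_co.Sm.D.Sc

/-! Checks. -/

set_option maxRecDepth 100000

namespace Pool.Agent.Work.MP_7cb3ca_co.Sm.D

noncomputable section

theorem cb21_1_0 : chk 21 1 0x0 0x1 t21_1 s21_2 b21_1_0 = true := by
  decide +kernel
theorem cb21_2_0 : chk 21 2 0x1 0x3 t21_2 s21_3 b21_2_0 = true := by
  decide +kernel
theorem cb21_3_0 : chk 21 3 0x3 0x200007 t21_3 s21_4 b21_3_0 = true := by
  decide +kernel
theorem cb21_4_0 : chk 21 4 0x200007 0x60000f t21_4 s21_5 b21_4_0 = true := by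
  decide +kernel
theorem cb21_5_0 : chk 21 5 0x60000f 0x40000e0001f t21_5 s21_6 b21_5_0 = true := by
  decide +kernel
theorem cb21_6_0 : chk 21 6 0x40000e0001f 0xc0001e0003f t21_6 s21_7 b21_6_0 = true := by
  decide +kernel
theorem cb21_7_0 : chk 21 7 0xc0001e0003f 0x80001c0003e0007f t21_7 s21_8 b21_7_0 = true := by
  decide +kernel
theorem cb21_8_0 : chk 21 8 0x80001c0003e0007f 0x180003c0007e000ff t21_8 s21_9 b21_8_0 = true := by
  decide +kernel
theorem cb21_9_0 : chk 21 9 0x180003c0007e000ff 0x10000380007c000fe001ff t21_9 s21_10 b21_9_0 = true := by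
  decide +kernel
theorem cb21_10_0 : chk 21 10 0x10000380007c000fe001ff 0x3000078000fc001fe003ff t21_10 s21_11 b21_10_0 = true := by
  decide +kernel
theorem cb21_10_1 : chk 21 10 0x10000380007c000fe001ff 0x3000078000fc001fe003ff t21_10 s21_11 b21_10_1 = true := by
  decide +kernel

end

end Pool.Agent.Work.MP_7cb3ca_co.Sm.D
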