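import Pool.Agent.Work.MP_7cb3ca_co.Sm.D.Sc

/-! Checks. -/

set_option maxRecDepth 100000

namespace Pool.Agent.Work.MP_7cb3ca_co.Sm.D

noncomputable section

theorem cb21_11_1 : chk 21 11 0x3000078000fc001fe003ff 0x2000070000f8001fc003fe007ff t21_11 s21_12 b21_11_1 = true := by
  decide +kernel
theorem cb21_11_2 : chk 21 11 0x3000078000fc001fe003ff 0x2000070000f8001fc003fe007ff t21_11 s21_12 b21_11_2 = true := by
  decide +kernel

end

end Pool.Agent.Work.MP_7cb3ca_co.Sm.D
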