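import Pool.Agent.Work.MP_7cb3ca_co.Sm.D.Sc

/-! Checks. -/

set_option maxRecDepth 100000

namespace Pool.Agent.Work.MP_7cb3ca_co.Sm.D

noncomputable section

theorem cb21_14_1 : chk 21 14 0x40000e0001f0003f8007fc00ffe01fff 0xc0001e0003f0007f800ffc01ffe03fff t21_14 s21_15 b21_14_1 = true := by
  decide +kernel
theorem cb21_14_2 : chk 21 14 0x40000e0001f0003f8007fc00ffe01fff 0xc0001e0003f0007f800ffc01ffe03fff t21_14 s21_15 b21_14_2 = true := by
  decide +kernel

end

end Pool.Agent.Work.MP_7cb3ca_co.Sm.D
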