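import Pool.Agent.Work.MP_7cb3ca_co.Sm.D.Sc

/-! Checks. -/

set_option maxRecDepth 100000

namespace Pool.Agent.Work.MP_7cb3ca_co.Sm.D

noncomputable section

theorem cb21_15_5 : chk 21 15 0xc0001e0003f0007f800ffc01ffe03fff 0x80001c0003e0007f000ff801ffc03ffe07fff t21_15 s21_16 b21_15_5 = true := by
  decide +kernel
theorem cb21_15_6 : chk 21 15 0xc0001e0003f0007f800ffc01ffe03fff 0x80001c0003e0007f000ff801ffc03ffe07fff t21_15 s21_16 b21_15_6 = true := by
  decide +kernel

end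

end Pool.Agent.Work.MP_7cb3ca_co.Sm.D
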