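import Pool.Agent.Work.MP_7cb3ca_co.Sm.D.Sc

/-! Checks. -/

set_option maxRecDepth 100000

namespace Pool.Agent.Work.MP_7cb3ca_co.Sm.D

noncomputable section

theorem cb21_18_1 : chk 21 18 0x10000380007c000fe001ff003ff807ffc0fffe1ffff 0x3000078000fc001fe003ff007ff80fffc1fffe3ffff t21_18 s21_19 b21_18_1 = true := by
  decide +kernel
theorem cb21_18_2 : chk 21 18 0x10000380007c000fe001ff003ff807ffc0fffe1ffff 0x3000078000fc001fe003ff007ff80fffc1fffe3ffff t21_18 s21_19 b21_18_2 = true := by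
  decide +kernel

end

end Pool.Agent.Work.MP_7cb3ca_co.Sm.D
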