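import Pool.Agent.Work.MP_7cb3ca_co.Sm.D.Sc

/-! Checks. -/

set_option maxRecDepth 100000

namespace Pool.Agent.Work.MP_7cb3ca_co.Sm.D

noncomputable section

theorem cb21_19_0 : chk 21 19 0x3000078000fc001fe003ff007ff80fffc1fffe3ffff 0x2000070000f8001fc003fe007ff00fff81fffc3fffe7ffff t21_19 s21_20 b21_19_0 = true := by
  decide +kernel
theorem cb21_19_1 : chk 21 19 0x3000078000fc001fe003ff007ff80fffc1fffe3ffff 0x2000070000f8001fc003fe007ff00fff81fffc3fffe7ffff t21_19 s21_20 b21_19_1 = true := by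
  decide +kernel

end

end Pool.Agent.Work.MP_7cb3ca_co.Sm.D
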