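import Pool.Agent.Work.MP_7cb3ca_co.Sm.Sound
import Pool.Agent.Work.MP_7cb3ca_co.Sm.D.Kc_0_0
import Pool.Agent.Work.MP_7cb3ca_co.Sm.D.Kc_0_1
import Pool.Agent.Work.MP_7cb3ca_co.Sm.D.Kc_0_2
import Pool.Agent.Work.MP_7cb3ca_co.Sm.D.Kc_0_3
import Pool.Agent.Work.MP_7cb3ca_co.Sm.D.Kc_1_0
import Pool.Agent.Work.MP_7cb3ca_co.Sm.D.Kc_1_1
import Pool.Agent.Work.MP_7cb3ca_co.Sm.D.Kc_1_2
import Pool.Agent.Work.MP_7cb3ca_co.Sm.D.Kc_2_0
import Pool.Agent.Work.MP_7cb3ca_co.Sm.D.Kc_2_1
import Pool.Agent.Work.MP_7cb3ca_co.Sm.D.Kc_2_2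
import Pool.Agent.Work.MP_7cb3ca_co.Sm.D.Kc_2_3
import Pool.Agent.Work.MP_7cb3ca_co.Sm.D.Kc_3_0
import Pool.Agent.Work.MP_7cb3ca_co.Sm.D.Kc_3_1
import Pool.Agent.Work.MP_7cb3ca_co.Sm.D.Kc_3_2
import Pool.Agent.Work.MP_7cb3ca_co.Sm.D.Kc_3_3
import Pool.Agent.Work.MP_7cb3ca_co.Sm.D.Kc_4_0
import Pool.Agent.Work.MP_7cb3ca_co.Sm.D.Kc_4_1
import Pool.Agent.Work.MP_7cb3ca_co.Sm.D.Kc_4_2
import Pool.Agent.Work.MP_7cb3ca_co.Sm.D.Kc_4_3
import Pool.Agent.Work.MP_7cb3ca_co.Sm.D.Kc_5_0
import Pool.Agent.Work.MP_7cb3ca_co.Sm.D.Kc_5_1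
import Pool.Agent.Work.MP_7cb3ca_co.Sm.D.Kc_5_2
import Pool.Agent.Work.MP_7cb3ca_co.Sm.D.Kc_5_3
import Pool.Agent.Work.MP_7cb3ca_co.Sm.D.Kc_6_0
import Pool.Agent.Work.MP_7cb3ca_co.Sm.D.Kc_6_1
import Pool.Agent.Work.MP_7cb3ca_co.Sm.D.Kc_6_2
import Pool.Agent.Work.MP_7cb3ca_co.Sm.D.Kc_6_3
import Pool.Agent.Work.MP_7cb3ca_co.Sm.D.Kc_7_0
import Pool.Agent.Work.MP_7cb3ca_co.Sm.D.Kc_7_1
import Pool.Agent.Work.MP_7cb3ca_co.Sm.D.Kc_7_2

/-! Short cycles. -/

set_option maxRecDepth 100000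

namespace Pool.Agent.Work.MP_7cb3ca_co.Sm.D

noncomputable section

theorem all_nodec {P : Nat → Prop} {l r : BT} (h1 : l.all P) (h2 : r.all P) : (BT.node l r).all P := ⟨h1, h2⟩

theorem w21_21 : s21_21.all (Win 21 21 (2 ^ (21 * (21 / 2)) - 1)) := win_last 21
theorem w21_20 : s21_20.all (Win 21 20 0x2000070000f8001fc003fe007ff00fff81fffc3fffe7ffff) :=
  (chk_spec (by decide) (by decide) u21_20 w21_21 _ cb21_20_0)
theorem w21_19 : s21_19.all (Win 21 19 0x3000078000fc001fe003ff007ff80fffc1fffe3ffff) :=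
  (all_nodec (all_nodec (chk_spec (by decide) (by decide) u21_19 w21_20 _ cb21_19_0)
    (chk_spec (by decide) (by decide) u21_19 w21_20 _ cb21_19_1))
    (all_nodec (chk_spec (by decide) (by decide) u21_19 w21_20 _ cb21_19_2)
    (chk_spec (by decide) (by decide) u21_19 w21_20 _ cb21_19_3)))
theorem w21_18 : s21_18.all (Win 21 18 0x10000380007c000fe001ff003ff807ffc0fffe1ffff) :=
  (all_nodec (all_nodec (all_nodec (chk_spec (by decide) (by decide) u21_18 w21_19 _ cb21_18_0)
    (chk_spec (by decide) (by decide) u21_18 w21_19 _ cb21_18_1))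
    (all_nodec (chk_spec (by decide) (by decide) u21_18 w21_19 _ cb21_18_2)
    (chk_spec (by decide) (by decide) u21_18 w21_19 _ cb21_18_3)))
    (all_nodec (all_nodec (chk_spec (by decide) (by decide) u21_18 w21_19 _ cb21_18_4)
    (chk_spec (by decide) (by decide) u21_18 w21_19 _ cb21_18_5))
    (all_nodec (chk_spec (by decide) (by decide) u21_18 w21_19 _ cb21_18_6)
    (chk_spec (by decide) (by decide) u21_18 w21_19 _ cb21_18_7))))
theorem w21_17 : s21_17.all (Win 21 17 0x180003c0007e000ff001ff803ffc07ffe0ffff) :=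
  (all_nodec (all_nodec (all_nodec (all_nodec (chk_spec (by decide) (by decide) u21_17 w21_18 _ cb21_17_0)
    (chk_spec (by decide) (by decide) u21_17 w21_18 _ cb21_17_1))
    (all_nodec (chk_spec (by decide) (by decide) u21_17 w21_18 _ cb21_17_2)
    (chk_spec (by decide) (by decide) u21_17 w21_18 _ cb21_17_3)))
    (all_nodec (all_nodec (chk_spec (by decide) (by decide) u21_17 w21_18 _ cb21_17_4)
    (chk_spec (by decide) (by decide) u21_17 w21_18 _ cb21_17_5))
    (all_nodec (chk_spec (by decide) (by decide) u21_17 w21_18 _ cb21_17_6)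
    (chk_spec (by decide) (by decide) u21_17 w21_18 _ cb21_17_7))))
    (all_nodec (all_nodec (all_nodec (chk_spec (by decide) (by decide) u21_17 w21_18 _ cb21_17_8)
    (chk_spec (by decide) (by decide) u21_17 w21_18 _ cb21_17_9))
    (all_nodec (chk_spec (by decide) (by decide) u21_17 w21_18 _ cb21_17_10)
    (chk_spec (by decide) (by decide) u21_17 w21_18 _ cb21_17_11)))
    (all_nodec (all_nodec (chk_spec (by decide) (by decide) u21_17 w21_18 _ cb21_17_12)
    (chk_spec (by decide) (by decide) u21_17 w21_18 _ cb21_17_13))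
    (all_nodec (chk_spec (by decide) (by decide) u21_17 w21_18 _ cb21_17_14)
    (chk_spec (by decide) (by decide) u21_17 w21_18 _ cb21_17_15)))))
theorem w21_16 : s21_16.all (Win 21 16 0x80001c0003e0007f000ff801ffc03ffe07fff) :=
  (all_nodec (all_nodec (all_nodec (all_nodec (chk_spec (by decide) (by decide) u21_16 w21_17 _ cb21_16_0)
    (chk_spec (by decide) (by decide) u21_16 w21_17 _ cb21_16_1))
    (all_nodec (chk_spec (by decide) (by decide) u21_16 w21_17 _ cb21_16_2)
    (chk_spec (by decide) (by decide) u21_16 w21_17 _ cb21_16_3)))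
    (all_nodec (all_nodec (chk_spec (by decide) (by decide) u21_16 w21_17 _ cb21_16_4)
    (chk_spec (by decide) (by decide) u21_16 w21_17 _ cb21_16_5))
    (all_nodec (chk_spec (by decide) (by decide) u21_16 w21_17 _ cb21_16_6)
    (chk_spec (by decide) (by decide) u21_16 w21_17 _ cb21_16_7))))
    (all_nodec (all_nodec (all_nodec (chk_spec (by decide) (by decide) u21_16 w21_17 _ cb21_16_8)
    (chk_spec (by decide) (by decide) u21_16 w21_17 _ cb21_16_9))
    (all_nodec (chk_spec (by decide) (by decide) u21_16 w21_17 _ cb21_16_10)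
    (chk_spec (by decide) (by decide) u21_16 w21_17 _ cb21_16_11)))
    (all_nodec (all_nodec (chk_spec (by decide) (by decide) u21_16 w21_17 _ cb21_16_12)
    (chk_spec (by decide) (by decide) u21_16 w21_17 _ cb21_16_13))
    (all_nodec (chk_spec (by decide) (by decide) u21_16 w21_17 _ cb21_16_14)
    (chk_spec (by decide) (by decide) u21_16 w21_17 _ cb21_16_15)))))
theorem w21_15 : s21_15.all (Win 21 15 0xc0001e0003f0007f800ffc01ffe03fff) :=
  (all_nodec (all_nodec (all_nodec (chk_spec (by decide) (by decide) u21_15 w21_16 _ cb21_15_0)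
    (chk_spec (by decide) (by decide) u21_15 w21_16 _ cb21_15_1))
    (all_nodec (chk_spec (by decide) (by decide) u21_15 w21_16 _ cb21_15_2)
    (chk_spec (by decide) (by decide) u21_15 w21_16 _ cb21_15_3)))
    (all_nodec (all_nodec (chk_spec (by decide) (by decide) u21_15 w21_16 _ cb21_15_4)
    (chk_spec (by decide) (by decide) u21_15 w21_16 _ cb21_15_5))
    (all_nodec (chk_spec (by decide) (by decide) u21_15 w21_16 _ cb21_15_6)
    (chk_spec (by decide) (by decide) u21_15 w21_16 _ cb21_15_7))))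
theorem w21_14 : s21_14.all (Win 21 14 0x40000e0001f0003f8007fc00ffe01fff) :=
  (all_nodec (all_nodec (chk_spec (by decide) (by decide) u21_14 w21_15 _ cb21_14_0)
    (chk_spec (by decide) (by decide) u21_14 w21_15 _ cb21_14_1))
    (all_nodec (chk_spec (by decide) (by decide) u21_14 w21_15 _ cb21_14_2)
    (chk_spec (by decide) (by decide) u21_14 w21_15 _ cb21_14_3)))
theorem w21_13 : s21_13.all (Win 21 13 0x60000f0001f8003fc007fe00fff) :=
  (all_nodec (chk_spec (by decide) (by decide) u21_13 w21_14 _ cb21_13_0)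
    (chk_spec (by decide) (by decide) u21_13 w21_14 _ cb21_13_1))
theorem w21_12 : s21_12.all (Win 21 12 0x2000070000f8001fc003fe007ff) :=
  (chk_spec (by decide) (by decide) u21_12 w21_13 _ cb21_12_0)
theorem w21_11 : s21_11.all (Win 21 11 0x3000078000fc001fe003ff) :=
  (all_nodec (all_nodec (all_nodec (chk_spec (by decide) (by decide) u21_11 w21_12 _ cb21_11_0)
    (chk_spec (by decide) (by decide) u21_11 w21_12 _ cb21_11_1))
    (all_nodec (chk_spec (by decide) (by decide) u21_11 w21_12 _ cb21_11_2)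
    (chk_spec (by decide) (by decide) u21_11 w21_12 _ cb21_11_3)))
    (all_nodec (all_nodec (chk_spec (by decide) (by decide) u21_11 w21_12 _ cb21_11_4)
    (chk_spec (by decide) (by decide) u21_11 w21_12 _ cb21_11_5))
    (all_nodec (chk_spec (by decide) (by decide) u21_11 w21_12 _ cb21_11_6)
    (chk_spec (by decide) (by decide) u21_11 w21_12 _ cb21_11_7))))
theorem w21_10 : s21_10.all (Win 21 10 0x10000380007c000fe001ff) :=
  (all_nodec (all_nodec (chk_spec (by decide) (by decide) u21_10 w21_11 _ cb21_10_0)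
    (chk_spec (by decide) (by decide) u21_10 w21_11 _ cb21_10_1))
    (all_nodec (chk_spec (by decide) (by decide) u21_10 w21_11 _ cb21_10_2)
    (chk_spec (by decide) (by decide) u21_10 w21_11 _ cb21_10_3)))
theorem w21_9 : s21_9.all (Win 21 9 0x180003c0007e000ff) :=
  (chk_spec (by decide) (by decide) u21_9 w21_10 _ cb21_9_0)
theorem w21_8 : s21_8.all (Win 21 8 0x80001c0003e0007f) :=
  (chk_spec (by decide) (by decide) u21_8 w21_9 _ cb21_8_0)
theorem w21_7 : s21_7.all (Win 21 7 0xc0001e0003f) :=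
  (chk_spec (by decide) (by decide) u21_7 w21_8 _ cb21_7_0)
theorem w21_6 : s21_6.all (Win 21 6 0x40000e0001f) :=
  (chk_spec (by decide) (by decide) u21_6 w21_7 _ cb21_6_0)
theorem w21_5 : s21_5.all (Win 21 5 0x60000f) :=
  (chk_spec (by decide) (by decide) u21_5 w21_6 _ cb21_5_0)
theorem w21_4 : s21_4.all (Win 21 4 0x200007) :=
  (chk_spec (by decide) (by decide) u21_4 w21_5 _ cb21_4_0)
theorem w21_3 : s21_3.all (Win 21 3 0x3) :=
  (chk_spec (by decide) (by decide) u21_3 w21_4 _ cb21_3_0)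
theorem w21_2 : s21_2.all (Win 21 2 0x1) :=
  (chk_spec (by decide) (by decide) u21_2 w21_3 _ cb21_2_0)
theorem w21_1 : s21_1.all (Win 21 1 0x0) :=
  (chk_spec (by decide) (by decide) u21_1 w21_2 _ cb21_1_0)
theorem short21 : Short 21 := short_of w21_1

end

end Pool.Agent.Work.MP_7cb3ca_co.Sm.D
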