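import Pool.Agent.Work.MP_7cb3ca_co.Sm.D.Sa

/-! Checks. -/

set_option maxRecDepth 100000

namespace Pool.Agent.Work.MP_7cb3ca_co.Sm.D

noncomputable section

theorem cb3_1_0 : chk 3 1 0x0 0x1 t3_1 s3_2 b3_1_0 = true := by
  decide +kernel
theorem cb3_2_0 : chk 3 2 0x1 (2 ^ (3 * (3 / 2)) - 1) t3_2 s3_3 b3_2_0 = true := by
  decide +kernel
theorem cb4_1_0 : chk 4 1 0x0 0x1 t4_1 s4_2 b4_1_0 = true := by
  decide +kernel
theorem cb4_2_0 : chk 4 2 0x1 0x3 t4_2 s4_3 b4_2_0 = true := by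
  decide +kernel
theorem cb4_3_0 : chk 4 3 0x3 (2 ^ (4 * (4 / 2)) - 1) t4_3 s4_4 b4_3_0 = true := by
  decide +kernel
theorem cb6_1_0 : chk 6 1 0x0 0x1 t6_1 s6_2 b6_1_0 = true := by
  decide +kernel
theorem cb6_2_0 : chk 6 2 0x1 0x3 t6_2 s6_3 b6_2_0 = true := by
  decide +kernel
theorem cb6_3_0 : chk 6 3 0x3 0x47 t6_3 s6_4 b6_3_0 = true := by
  decide +kernel
theorem cb6_4_0 : chk 6 4 0x47 0xcf t6_4 s6_5 b6_4_0 = true := by
  decide +kernel
theorem cb6_5_0 : chk 6 5 0xcf (2 ^ (6 * (6 / 2)) - 1) t6_5 s6_6 b6_5_0 = true := by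
  decide +kernel
theorem cb8_1_0 : chk 8 1 0x0 0x1 t8_1 s8_2 b8_1_0 = true := by
  decide +kernel
theorem cb8_2_0 : chk 8 2 0x1 0x3 t8_2 s8_3 b8_2_0 = true := by
  decide +kernel
theorem cb8_3_0 : chk 8 3 0x3 0x107 t8_3 s8_4 b8_3_0 = true := by
  decide +kernel
theorem cb8_4_0 : chk 8 4 0x107 0x30f t8_4 s8_5 b8_4_0 = true := by
  decide +kernel
theorem cb8_5_0 : chk 8 5 0x30f 0x1071f t8_5 s8_6 b8_5_0 = true := by
  decide +kernel
theorem cb8_6_0 : chk 8 6 0x1071f 0x30f3f t8_6 s8_7 b8_6_0 = true := by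
  decide +kernel
theorem cb8_7_0 : chk 8 7 0x30f3f (2 ^ (8 * (8 / 2)) - 1) t8_7 s8_8 b8_7_0 = true := by
  decide +kernel
theorem cb11_1_0 : chk 11 1 0x0 0x1 t11_1 s11_2 b11_1_0 = true := by
  decide +kernel
theorem cb11_2_0 : chk 11 2 0x1 0x3 t11_2 s11_3 b11_2_0 = true := by
  decide +kernel
theorem cb11_3_0 : chk 11 3 0x3 0x807 t11_3 s11_4 b11_3_0 = true := by
  decide +kernel
theorem cb11_4_0 : chk 11 4 0x807 0x180f t11_4 s11_5 b11_4_0 = true := by
  decide +kernel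
theorem cb11_5_0 : chk 11 5 0x180f 0x40381f t11_5 s11_6 b11_5_0 = true := by
  decide +kernel
theorem cb11_6_0 : chk 11 6 0x40381f 0xc0783f t11_6 s11_7 b11_6_0 = true := by
  decide +kernel
theorem cb11_7_0 : chk 11 7 0xc0783f 0x201c0f87f t11_7 s11_8 b11_7_0 = true := by
  decide +kernel
theorem cb11_8_0 : chk 11 8 0x201c0f87f 0x603c1f8ff t11_8 s11_9 b11_8_0 = true := by
  decide +kernel
theorem cb11_9_0 : chk 11 9 0x603c1f8ff 0x100e07c3f9ff t11_9 s11_10 b11_9_0 = true := by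
  decide +kernel
theorem cb11_10_0 : chk 11 10 0x100e07c3f9ff (2 ^ (11 * (11 / 2)) - 1) t11_10 s11_11 b11_10_0 = true := by
  decide +kernel
theorem cb12_1_0 : chk 12 1 0x0 0x1 t12_1 s12_2 b12_1_0 = true := by
  decide +kernel
theorem cb12_2_0 : chk 12 2 0x1 0x3 t12_2 s12_3 b12_2_0 = true := by
  decide +kernel
theorem cb12_3_0 : chk 12 3 0x3 0x1007 t12_3 s12_4 b12_3_0 = true := by
  decide +kernel
theorem cb12_4_0 : chk 12 4 0x1007 0x300f t12_4 s12_5 b12_4_0 = true := by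
  decide +kernel
theorem cb12_5_0 : chk 12 5 0x300f 0x100701f t12_5 s12_6 b12_5_0 = true := by
  decide +kernel
theorem cb12_6_0 : chk 12 6 0x100701f 0x300f03f t12_6 s12_7 b12_6_0 = true := by
  decide +kernel
theorem cb12_7_0 : chk 12 7 0x300f03f 0x100701f07f t12_7 s12_8 b12_7_0 = true := by
  decide +kernel
theorem cb12_8_0 : chk 12 8 0x100701f07f 0x300f03f0ff t12_8 s12_9 b12_8_0 = true := by
  decide +kernel
theorem cb12_9_0 : chk 12 9 0x300f03f0ff 0x100701f07f1ff t12_9 s12_10 b12_9_0 = true := by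
  decide +kernel
theorem cb12_10_0 : chk 12 10 0x100701f07f1ff 0x300f03f0ff3ff t12_10 s12_11 b12_10_0 = true := by
  decide +kernel
theorem cb12_11_0 : chk 12 11 0x300f03f0ff3ff (2 ^ (12 * (12 / 2)) - 1) t12_11 s12_12 b12_11_0 = true := by
  decide +kernel
theorem cb13_1_0 : chk 13 1 0x0 0x1 t13_1 s13_2 b13_1_0 = true := by
  decide +kernel
theorem cb13_2_0 : chk 13 2 0x1 0x3 t13_2 s13_3 b13_2_0 = true := by
  decide +kernel
theorem cb13_3_0 : chk 13 3 0x3 0x2007 t13_3 s13_4 b13_3_0 = true := by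
  decide +kernel
theorem cb13_4_0 : chk 13 4 0x2007 0x600f t13_4 s13_5 b13_4_0 = true := by
  decide +kernel
theorem cb13_5_0 : chk 13 5 0x600f 0x400e01f t13_5 s13_6 b13_5_0 = true := by
  decide +kernel
theorem cb13_6_0 : chk 13 6 0x400e01f 0xc01e03f t13_6 s13_7 b13_6_0 = true := by
  decide +kernel
theorem cb13_7_0 : chk 13 7 0xc01e03f 0x801c03e07f t13_7 s13_8 b13_7_0 = true := by
  decide +kernel
theorem cb13_8_0 : chk 13 8 0x801c03e07f 0x1803c07e0ff t13_8 s13_9 b13_8_0 = true := by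
  decide +kernel
theorem cb13_9_0 : chk 13 9 0x1803c07e0ff 0x1003807c0fe1ff t13_9 s13_10 b13_9_0 = true := by
  decide +kernel
theorem cb13_10_0 : chk 13 10 0x1003807c0fe1ff 0x300780fc1fe3ff t13_10 s13_11 b13_10_0 = true := by
  decide +kernel
theorem cb13_11_0 : chk 13 11 0x300780fc1fe3ff 0x200700f81fc3fe7ff t13_11 s13_12 b13_11_0 = true := by
  decide +kernel
theorem cb13_12_0 : chk 13 12 0x200700f81fc3fe7ff (2 ^ (13 * (13 / 2)) - 1) t13_12 s13_13 b13_12_0 = true := by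
  decide +kernel
theorem cb15_1_0 : chk 15 1 0x0 0x1 t15_1 s15_2 b15_1_0 = true := by
  decide +kernel
theorem cb15_2_0 : chk 15 2 0x1 0x3 t15_2 s15_3 b15_2_0 = true := by
  decide +kernel
theorem cb15_3_0 : chk 15 3 0x3 0x8007 t15_3 s15_4 b15_3_0 = true := by
  decide +kernel
theorem cb15_4_0 : chk 15 4 0x8007 0x1800f t15_4 s15_5 b15_4_0 = true := by
  decide +kernel
theorem cb15_5_0 : chk 15 5 0x1800f 0x4003801f t15_5 s15_6 b15_5_0 = true := by
  decide +kernel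
theorem cb15_6_0 : chk 15 6 0x4003801f 0xc007803f t15_6 s15_7 b15_6_0 = true := by
  decide +kernel
theorem cb15_7_0 : chk 15 7 0xc007803f 0x2001c00f807f t15_7 s15_8 b15_7_0 = true := by
  decide +kernel
theorem cb15_8_0 : chk 15 8 0x2001c00f807f 0x6003c01f80ff t15_8 s15_9 b15_8_0 = true := by
  decide +kernel
theorem cb15_9_0 : chk 15 9 0x6003c01f80ff 0x1000e007c03f81ff t15_9 s15_10 b15_9_0 = true := by
  decide +kernel
theorem cb15_10_0 : chk 15 10 0x1000e007c03f81ff 0x3001e00fc07f83ff t15_10 s15_11 b15_10_0 = true := by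
  decide +kernel
theorem cb15_11_0 : chk 15 11 0x3001e00fc07f83ff 0x8007003e01fc0ff87ff t15_11 s15_12 b15_11_0 = true := by
  decide +kernel
theorem cb15_12_0 : chk 15 12 0x8007003e01fc0ff87ff 0x1800f007e03fc1ff8fff t15_12 s15_13 b15_12_0 = true := by
  decide +kernel

end

end Pool.Agent.Work.MP_7cb3ca_co.Sm.D
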