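import Pool.Agent.Work.MP_7cb3ca_co.Sm.D.Sa

/-! Checks. -/

set_option maxRecDepth 100000

namespace Pool.Agent.Work.MP_7cb3ca_co.Sm.D

noncomputable section

theorem cb15_13_0 : chk 15 13 0x1800f007e03fc1ff8fff 0x4003801f00fe07fc3ff9fff t15_13 s15_14 b15_13_0 = true := by
  decide +kernel
theorem cb15_14_0 : chk 15 14 0x4003801f00fe07fc3ff9fff (2 ^ (15 * (15 / 2)) - 1) t15_14 s15_15 b15_14_0 = true := by
  decide +kernel
theorem cb16_1_0 : chk 16 1 0x0 0x1 t16_1 s16_2 b16_1_0 = true := by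
  decide +kernel
theorem cb16_2_0 : chk 16 2 0x1 0x3 t16_2 s16_3 b16_2_0 = true := by
  decide +kernel
theorem cb16_3_0 : chk 16 3 0x3 0x10007 t16_3 s16_4 b16_3_0 = true := by
  decide +kernel
theorem cb16_4_0 : chk 16 4 0x10007 0x3000f t16_4 s16_5 b16_4_0 = true := by
  decide +kernel
theorem cb16_5_0 : chk 16 5 0x3000f 0x10007001f t16_5 s16_6 b16_5_0 = true := by
  decide +kernel
theorem cb16_6_0 : chk 16 6 0x10007001f 0x3000f003f t16_6 s16_7 b16_6_0 = true := by
  decide +kernel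
theorem cb16_7_0 : chk 16 7 0x3000f003f 0x10007001f007f t16_7 s16_8 b16_7_0 = true := by
  decide +kernel
theorem cb16_8_0 : chk 16 8 0x10007001f007f 0x3000f003f00ff t16_8 s16_9 b16_8_0 = true := by
  decide +kernel
theorem cb16_9_0 : chk 16 9 0x3000f003f00ff 0x10007001f007f01ff t16_9 s16_10 b16_9_0 = true := by
  decide +kernel
theorem cb16_10_0 : chk 16 10 0x10007001f007f01ff 0x3000f003f00ff03ff t16_10 s16_11 b16_10_0 = true := by
  decide +kernel
theorem cb16_11_0 : chk 16 11 0x3000f003f00ff03ff 0x10007001f007f01ff07ff t16_11 s16_12 b16_11_0 = true := by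
  decide +kernel
theorem cb16_12_0 : chk 16 12 0x10007001f007f01ff07ff 0x3000f003f00ff03ff0fff t16_12 s16_13 b16_12_0 = true := by
  decide +kernel
theorem cb16_13_0 : chk 16 13 0x3000f003f00ff03ff0fff 0x10007001f007f01ff07ff1fff t16_13 s16_14 b16_13_0 = true := by
  decide +kernel
theorem cb16_14_0 : chk 16 14 0x10007001f007f01ff07ff1fff 0x3000f003f00ff03ff0fff3fff t16_14 s16_15 b16_14_0 = true := by
  decide +kernel
theorem cb16_15_0 : chk 16 15 0x3000f003f00ff03ff0fff3fff (2 ^ (16 * (16 / 2)) - 1) t16_15 s16_16 b16_15_0 = true := by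
  decide +kernel
theorem cb18_1_0 : chk 18 1 0x0 0x1 t18_1 s18_2 b18_1_0 = true := by
  decide +kernel
theorem cb18_2_0 : chk 18 2 0x1 0x3 t18_2 s18_3 b18_2_0 = true := by
  decide +kernel
theorem cb18_3_0 : chk 18 3 0x3 0x40007 t18_3 s18_4 b18_3_0 = true := by
  decide +kernel
theorem cb18_4_0 : chk 18 4 0x40007 0xc000f t18_4 s18_5 b18_4_0 = true := by
  decide +kernel
theorem cb18_5_0 : chk 18 5 0xc000f 0x10001c001f t18_5 s18_6 b18_5_0 = true := by
  decide +kernel
theorem cb18_6_0 : chk 18 6 0x10001c001f 0x30003c003f t18_6 s18_7 b18_6_0 = true := by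
  decide +kernel
theorem cb18_7_0 : chk 18 7 0x30003c003f 0x400070007c007f t18_7 s18_8 b18_7_0 = true := by
  decide +kernel
theorem cb18_8_0 : chk 18 8 0x400070007c007f 0xc000f000fc00ff t18_8 s18_9 b18_8_0 = true := by
  decide +kernel
theorem cb18_9_0 : chk 18 9 0xc000f000fc00ff 0x10001c001f001fc01ff t18_9 s18_10 b18_9_0 = true := by
  decide +kernel
theorem cb18_10_0 : chk 18 10 0x10001c001f001fc01ff 0x30003c003f003fc03ff t18_10 s18_11 b18_10_0 = true := by
  decide +kernel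

end

end Pool.Agent.Work.MP_7cb3ca_co.Sm.D
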