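import Pool.Agent.Work.MP_7cb3ca_co.Sm.D.Sa

/-! Checks. -/

set_option maxRecDepth 100000

namespace Pool.Agent.Work.MP_7cb3ca_co.Sm.D

noncomputable section

theorem cb18_11_0 : chk 18 11 0x30003c003f003fc03ff 0x400070007c007f007fc07ff t18_11 s18_12 b18_11_0 = true := by
  decide +kernel
theorem cb18_12_0 : chk 18 12 0x400070007c007f007fc07ff 0xc000f000fc00ff00ffc0fff t18_12 s18_13 b18_12_0 = true := by
  decide +kernel
theorem cb18_13_0 : chk 18 13 0xc000f000fc00ff00ffc0fff 0x10001c001f001fc01ff01ffc1fff t18_13 s18_14 b18_13_0 = true := by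
  decide +kernel
theorem cb18_13_1 : chk 18 13 0xc000f000fc00ff00ffc0fff 0x10001c001f001fc01ff01ffc1fff t18_13 s18_14 b18_13_1 = true := by
  decide +kernel

end

end Pool.Agent.Work.MP_7cb3ca_co.Sm.D
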