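import Pool.Agent.Work.MP_7cb3ca_co.Sm.D.Sa

/-! Checks. -/

set_option maxRecDepth 100000

namespace Pool.Agent.Work.MP_7cb3ca_co.Sm.D

noncomputable section

theorem cb18_14_0 : chk 18 14 0x10001c001f001fc01ff01ffc1fff 0x30003c003f003fc03ff03ffc3fff t18_14 s18_15 b18_14_0 = true := by
  decide +kernel
theorem cb18_14_1 : chk 18 14 0x10001c001f001fc01ff01ffc1fff 0x30003c003f003fc03ff03ffc3fff t18_14 s18_15 b18_14_1 = true := by
  decide +kernel
theorem cb18_15_0 : chk 18 15 0x30003c003f003fc03ff03ffc3fff 0x400070007c007f007fc07ff07ffc7fff t18_15 s18_16 b18_15_0 = true := by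
  decide +kernel
theorem cb18_15_1 : chk 18 15 0x30003c003f003fc03ff03ffc3fff 0x400070007c007f007fc07ff07ffc7fff t18_15 s18_16 b18_15_1 = true := by
  decide +kernel

end

end Pool.Agent.Work.MP_7cb3ca_co.Sm.D
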