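import Pool.Agent.Work.MP_7cb3ca_co.Sm.D.Sa

/-! Checks. -/

set_option maxRecDepth 100000

namespace Pool.Agent.Work.MP_7cb3ca_co.Sm.D

noncomputable section

theorem cb18_16_0 : chk 18 16 0x400070007c007f007fc07ff07ffc7fff 0xc000f000fc00ff00ffc0fff0fffcffff t18_16 s18_17 b18_16_0 = true := by
  decide +kernel
theorem cb18_17_0 : chk 18 17 0xc000f000fc00ff00ffc0fff0fffcffff (2 ^ (18 * (18 / 2)) - 1) t18_17 s18_18 b18_17_0 = true := by
  decide +kernel
theorem cb19_1_0 : chk 19 1 0x0 0x1 t19_1 s19_2 b19_1_0 = true := by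
  decide +kernel
theorem cb19_2_0 : chk 19 2 0x1 0x3 t19_2 s19_3 b19_2_0 = true := by
  decide +kernel
theorem cb19_3_0 : chk 19 3 0x3 0x80007 t19_3 s19_4 b19_3_0 = true := by
  decide +kernel
theorem cb19_4_0 : chk 19 4 0x80007 0x18000f t19_4 s19_5 b19_4_0 = true := by
  decide +kernel
theorem cb19_5_0 : chk 19 5 0x18000f 0x400038001f t19_5 s19_6 b19_5_0 = true := by
  decide +kernel
theorem cb19_6_0 : chk 19 6 0x400038001f 0xc00078003f t19_6 s19_7 b19_6_0 = true := by
  decide +kernel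
theorem cb19_7_0 : chk 19 7 0xc00078003f 0x20001c000f8007f t19_7 s19_8 b19_7_0 = true := by
  decide +kernel
theorem cb19_8_0 : chk 19 8 0x20001c000f8007f 0x60003c001f800ff t19_8 s19_9 b19_8_0 = true := by
  decide +kernel
theorem cb19_9_0 : chk 19 9 0x60003c001f800ff 0x10000e0007c003f801ff t19_9 s19_10 b19_9_0 = true := by
  decide +kernel
theorem cb19_10_0 : chk 19 10 0x10000e0007c003f801ff 0x30001e000fc007f803ff t19_10 s19_11 b19_10_0 = true := by
  decide +kernel
theorem cb19_11_0 : chk 19 11 0x30001e000fc007f803ff 0x800070003e001fc00ff807ff t19_11 s19_12 b19_11_0 = true := by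
  decide +kernel
theorem cb19_12_0 : chk 19 12 0x800070003e001fc00ff807ff 0x18000f0007e003fc01ff80fff t19_12 s19_13 b19_12_0 = true := by
  decide +kernel

end

end Pool.Agent.Work.MP_7cb3ca_co.Sm.D
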