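import Pool.Agent.Work.MP_7cb3ca_co.Sm.D.Sa

/-! Checks. -/

set_option maxRecDepth 100000

namespace Pool.Agent.Work.MP_7cb3ca_co.Sm.D

noncomputable section

theorem cb19_13_0 : chk 19 13 0x18000f0007e003fc01ff80fff 0x400038001f000fe007fc03ff81fff t19_13 s19_14 b19_13_0 = true := by
  decide +kernel
theorem cb19_13_1 : chk 19 13 0x18000f0007e003fc01ff80fff 0x400038001f000fe007fc03ff81fff t19_13 s19_14 b19_13_1 = true := by
  decide +kernel
theorem cb19_13_2 : chk 19 13 0x18000f0007e003fc01ff80fff 0x400038001f000fe007fc03ff81fff t19_13 s19_14 b19_13_2 = true := by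
  decide +kernel
theorem cb19_13_3 : chk 19 13 0x18000f0007e003fc01ff80fff 0x400038001f000fe007fc03ff81fff t19_13 s19_14 b19_13_3 = true := by
  decide +kernel

end

end Pool.Agent.Work.MP_7cb3ca_co.Sm.D
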