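import Pool.Agent.Work.MP_7cb3ca_co.Sm.D.Sa

/-! Checks. -/

set_option maxRecDepth 100000

namespace Pool.Agent.Work.MP_7cb3ca_co.Sm.D

noncomputable section

theorem cb19_14_0 : chk 19 14 0x400038001f000fe007fc03ff81fff 0xc00078003f001fe00ffc07ff83fff t19_14 s19_15 b19_14_0 = true := by
  decide +kernel
theorem cb19_14_1 : chk 19 14 0x400038001f000fe007fc03ff81fff 0xc00078003f001fe00ffc07ff83fff t19_14 s19_15 b19_14_1 = true := by
  decide +kernel

end

end Pool.Agent.Work.MP_7cb3ca_co.Sm.D
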