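import Pool.Agent.Work.MP_7cb3ca_co.Sm.D.Sa

/-! Checks. -/

set_option maxRecDepth 100000

namespace Pool.Agent.Work.MP_7cb3ca_co.Sm.D

noncomputable section

theorem cb19_15_1 : chk 19 15 0xc00078003f001fe00ffc07ff83fff 0x20001c000f8007f003fe01ffc0fff87fff t19_15 s19_16 b19_15_1 = true := by
  decide +kernel
theorem cb19_15_2 : chk 19 15 0xc00078003f001fe00ffc07ff83fff 0x20001c000f8007f003fe01ffc0fff87fff t19_15 s19_16 b19_15_2 = true := by
  decide +kernel

end

end Pool.Agent.Work.MP_7cb3ca_co.Sm.D
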