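import Pool.Agent.Work.MP_7cb3ca_co.Sm.D.Sa

/-! Checks. -/

set_option maxRecDepth 100000

namespace Pool.Agent.Work.MP_7cb3ca_co.Sm.D

noncomputable section

theorem cb19_16_1 : chk 19 16 0x20001c000f8007f003fe01ffc0fff87fff 0x60003c001f800ff007fe03ffc1fff8ffff t19_16 s19_17 b19_16_1 = true := by
  decide +kernel
theorem cb19_16_2 : chk 19 16 0x20001c000f8007f003fe01ffc0fff87fff 0x60003c001f800ff007fe03ffc1fff8ffff t19_16 s19_17 b19_16_2 = true := by
  decide +kernel

end

end Pool.Agent.Work.MP_7cb3ca_co.Sm.D
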