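import Pool.Agent.Work.MP_7cb3ca_co.Sm.D.Sa

/-! Checks. -/

set_option maxRecDepth 100000

namespace Pool.Agent.Work.MP_7cb3ca_co.Sm.D

noncomputable section

theorem cb19_16_3 : chk 19 16 0x20001c000f8007f003fe01ffc0fff87fff 0x60003c001f800ff007fe03ffc1fff8ffff t19_16 s19_17 b19_16_3 = true := by
  decide +kernel
theorem cb19_17_0 : chk 19 17 0x60003c001f800ff007fe03ffc1fff8ffff 0x10000e0007c003f801ff00ffe07ffc3fff9ffff t19_17 s19_18 b19_17_0 = true := by
  decide +kernel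
theorem cb19_17_1 : chk 19 17 0x60003c001f800ff007fe03ffc1fff8ffff 0x10000e0007c003f801ff00ffe07ffc3fff9ffff t19_17 s19_18 b19_17_1 = true := by
  decide +kernel
theorem cb19_18_0 : chk 19 18 0x10000e0007c003f801ff00ffe07ffc3fff9ffff (2 ^ (19 * (19 / 2)) - 1) t19_18 s19_19 b19_18_0 = true := by
  decide +kernel

end

end Pool.Agent.Work.MP_7cb3ca_co.Sm.D
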