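import Pool.Agent.Work.MP_7cb3ca_co.Sm.D.Sb

/-! Checks. -/

set_option maxRecDepth 100000

namespace Pool.Agent.Work.MP_7cb3ca_co.Sm.D

noncomputable section

theorem cb20_16_2 : chk 20 16 0x1000070001f0007f001ff007ff01fff07fff 0x30000f0003f000ff003ff00fff03fff0ffff t20_16 s20_17 b20_16_2 = true := by
  decide +kernel
theorem cb20_16_3 : chk 20 16 0x1000070001f0007f001ff007ff01fff07fff 0x30000f0003f000ff003ff00fff03fff0ffff t20_16 s20_17 b20_16_3 = true := by
  decide +kernel
theorem cb20_16_4 : chk 20 16 0x1000070001f0007f001ff007ff01fff07fff 0x30000f0003f000ff003ff00fff03fff0ffff t20_16 s20_17 b20_16_4 = true := by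
  decide +kernel

end

end Pool.Agent.Work.MP_7cb3ca_co.Sm.D
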