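import Pool.Agent.Work.MP_7cb3ca_co.Sm.Sound
import Pool.Agent.Work.MP_7cb3ca_co.Sm.D.Ka_0_0
import Pool.Agent.Work.MP_7cb3ca_co.Sm.D.Ka_0_1
import Pool.Agent.Work.MP_7cb3ca_co.Sm.D.Ka_0_2
import Pool.Agent.Work.MP_7cb3ca_co.Sm.D.Ka_0_3
import Pool.Agent.Work.MP_7cb3ca_co.Sm.D.Ka_0_4
import Pool.Agent.Work.MP_7cb3ca_co.Sm.D.Ka_0_5
import Pool.Agent.Work.MP_7cb3ca_co.Sm.D.Ka_1_0
import Pool.Agent.Work.MP_7cb3ca_co.Sm.D.Ka_1_1
import Pool.Agent.Work.MP_7cb3ca_co.Sm.D.Ka_1_2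
import Pool.Agent.Work.MP_7cb3ca_co.Sm.D.Ka_1_3
import Pool.Agent.Work.MP_7cb3ca_co.Sm.D.Ka_1_4
import Pool.Agent.Work.MP_7cb3ca_co.Sm.D.Ka_1_5

/-! Short cycles. -/

set_option maxRecDepth 100000

namespace Pool.Agent.Work.MP_7cb3ca_co.Sm.D

noncomputable section

theorem all_nodea {P : Nat → Prop} {l r : BT} (h1 : l.all P) (h2 : r.all P) : (BT.node l r).all P := ⟨h1, h2⟩

theorem w3_3 : s3_3.all (Win 3 3 (2 ^ (3 * (3 / 2)) - 1)) := win_last 3
theorem w3_2 : s3_2.all (Win 3 2 0x1) :=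
  (chk_spec (by decide) (by decide) u3_2 w3_3 _ cb3_2_0)
theorem w3_1 : s3_1.all (Win 3 1 0x0) :=
  (chk_spec (by decide) (by decide) u3_1 w3_2 _ cb3_1_0)
theorem short3 : Short 3 := short_of w3_1
theorem w4_4 : s4_4.all (Win 4 4 (2 ^ (4 * (4 / 2)) - 1)) := win_last 4
theorem w4_3 : s4_3.all (Win 4 3 0x3) :=
  (chk_spec (by decide) (by decide) u4_3 w4_4 _ cb4_3_0)
theorem w4_2 : s4_2.all (Win 4 2 0x1) :=
  (chk_spec (by decide) (by decide) u4_2 w4_3 _ cb4_2_0)
theorem w4_1 : s4_1.all (Win 4 1 0x0) :=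
  (chk_spec (by decide) (by decide) u4_1 w4_2 _ cb4_1_0)
theorem short4 : Short 4 := short_of w4_1
theorem w6_6 : s6_6.all (Win 6 6 (2 ^ (6 * (6 / 2)) - 1)) := win_last 6
theorem w6_5 : s6_5.all (Win 6 5 0xcf) :=
  (chk_spec (by decide) (by decide) u6_5 w6_6 _ cb6_5_0)
theorem w6_4 : s6_4.all (Win 6 4 0x47) :=
  (chk_spec (by decide) (by decide) u6_4 w6_5 _ cb6_4_0)
theorem w6_3 : s6_3.all (Win 6 3 0x3) :=
  (chk_spec (by decide) (by decide) u6_3 w6_4 _ cb6_3_0)
theorem w6_2 : s6_2.all (Win 6 2 0x1) :=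
  (chk_spec (by decide) (by decide) u6_2 w6_3 _ cb6_2_0)
theorem w6_1 : s6_1.all (Win 6 1 0x0) :=
  (chk_spec (by decide) (by decide) u6_1 w6_2 _ cb6_1_0)
theorem short6 : Short 6 := short_of w6_1
theorem w8_8 : s8_8.all (Win 8 8 (2 ^ (8 * (8 / 2)) - 1)) := win_last 8
theorem w8_7 : s8_7.all (Win 8 7 0x30f3f) :=
  (chk_spec (by decide) (by decide) u8_7 w8_8 _ cb8_7_0)
theorem w8_6 : s8_6.all (Win 8 6 0x1071f) :=
  (chk_spec (by decide) (by decide) u8_6 w8_7 _ cb8_6_0)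
theorem w8_5 : s8_5.all (Win 8 5 0x30f) :=
  (chk_spec (by decide) (by decide) u8_5 w8_6 _ cb8_5_0)
theorem w8_4 : s8_4.all (Win 8 4 0x107) :=
  (chk_spec (by decide) (by decide) u8_4 w8_5 _ cb8_4_0)
theorem w8_3 : s8_3.all (Win 8 3 0x3) :=
  (chk_spec (by decide) (by decide) u8_3 w8_4 _ cb8_3_0)
theorem w8_2 : s8_2.all (Win 8 2 0x1) :=
  (chk_spec (by decide) (by decide) u8_2 w8_3 _ cb8_2_0)
theorem w8_1 : s8_1.all (Win 8 1 0x0) :=
  (chk_spec (by decide) (by decide) u8_1 w8_2 _ cb8_1_0)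
theorem short8 : Short 8 := short_of w8_1
theorem w11_11 : s11_11.all (Win 11 11 (2 ^ (11 * (11 / 2)) - 1)) := win_last 11
theorem w11_10 : s11_10.all (Win 11 10 0x100e07c3f9ff) :=
  (chk_spec (by decide) (by decide) u11_10 w11_11 _ cb11_10_0)
theorem w11_9 : s11_9.all (Win 11 9 0x603c1f8ff) :=
  (chk_spec (by decide) (by decide) u11_9 w11_10 _ cb11_9_0)
theorem w11_8 : s11_8.all (Win 11 8 0x201c0f87f) :=
  (chk_spec (by decide) (by decide) u11_8 w11_9 _ cb11_8_0)
theorem w11_7 : s11_7.all (Win 11 7 0xc0783f) :=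
  (chk_spec (by decide) (by decide) u11_7 w11_8 _ cb11_7_0)
theorem w11_6 : s11_6.all (Win 11 6 0x40381f) :=
  (chk_spec (by decide) (by decide) u11_6 w11_7 _ cb11_6_0)
theorem w11_5 : s11_5.all (Win 11 5 0x180f) :=
  (chk_spec (by decide) (by decide) u11_5 w11_6 _ cb11_5_0)
theorem w11_4 : s11_4.all (Win 11 4 0x807) :=
  (chk_spec (by decide) (by decide) u11_4 w11_5 _ cb11_4_0)
theorem w11_3 : s11_3.all (Win 11 3 0x3) :=
  (chk_spec (by decide) (by decide) u11_3 w11_4 _ cb11_3_0)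
theorem w11_2 : s11_2.all (Win 11 2 0x1) :=
  (chk_spec (by decide) (by decide) u11_2 w11_3 _ cb11_2_0)
theorem w11_1 : s11_1.all (Win 11 1 0x0) :=
  (chk_spec (by decide) (by decide) u11_1 w11_2 _ cb11_1_0)
theorem short11 : Short 11 := short_of w11_1
theorem w12_12 : s12_12.all (Win 12 12 (2 ^ (12 * (12 / 2)) - 1)) := win_last 12
theorem w12_11 : s12_11.all (Win 12 11 0x300f03f0ff3ff) :=
  (chk_spec (by decide) (by decide) u12_11 w12_12 _ cb12_11_0)
theorem w12_10 : s12_10.all (Win 12 10 0x100701f07f1ff) :=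
  (chk_spec (by decide) (by decide) u12_10 w12_11 _ cb12_10_0)
theorem w12_9 : s12_9.all (Win 12 9 0x300f03f0ff) :=
  (chk_spec (by decide) (by decide) u12_9 w12_10 _ cb12_9_0)
theorem w12_8 : s12_8.all (Win 12 8 0x100701f07f) :=
  (chk_spec (by decide) (by decide) u12_8 w12_9 _ cb12_8_0)
theorem w12_7 : s12_7.all (Win 12 7 0x300f03f) :=
  (chk_spec (by decide) (by decide) u12_7 w12_8 _ cb12_7_0)
theorem w12_6 : s12_6.all (Win 12 6 0x100701f) :=
  (chk_spec (by decide) (by decide) u12_6 w12_7 _ cb12_6_0)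
theorem w12_5 : s12_5.all (Win 12 5 0x300f) :=
  (chk_spec (by decide) (by decide) u12_5 w12_6 _ cb12_5_0)
theorem w12_4 : s12_4.all (Win 12 4 0x1007) :=
  (chk_spec (by decide) (by decide) u12_4 w12_5 _ cb12_4_0)
theorem w12_3 : s12_3.all (Win 12 3 0x3) :=
  (chk_spec (by decide) (by decide) u12_3 w12_4 _ cb12_3_0)
theorem w12_2 : s12_2.all (Win 12 2 0x1) :=
  (chk_spec (by decide) (by decide) u12_2 w12_3 _ cb12_2_0)
theorem w12_1 : s12_1.all (Win 12 1 0x0) :=
  (chk_spec (by decide) (by decide) u12_1 w12_2 _ cb12_1_0)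
theorem short12 : Short 12 := short_of w12_1
theorem w13_13 : s13_13.all (Win 13 13 (2 ^ (13 * (13 / 2)) - 1)) := win_last 13
theorem w13_12 : s13_12.all (Win 13 12 0x200700f81fc3fe7ff) :=
  (chk_spec (by decide) (by decide) u13_12 w13_13 _ cb13_12_0)
theorem w13_11 : s13_11.all (Win 13 11 0x300780fc1fe3ff) :=
  (chk_spec (by decide) (by decide) u13_11 w13_12 _ cb13_11_0)
theorem w13_10 : s13_10.all (Win 13 10 0x1003807c0fe1ff) :=
  (chk_spec (by decide) (by decide) u13_10 w13_11 _ cb13_10_0)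
theorem w13_9 : s13_9.all (Win 13 9 0x1803c07e0ff) :=
  (chk_spec (by decide) (by decide) u13_9 w13_10 _ cb13_9_0)
theorem w13_8 : s13_8.all (Win 13 8 0x801c03e07f) :=
  (chk_spec (by decide) (by decide) u13_8 w13_9 _ cb13_8_0)
theorem w13_7 : s13_7.all (Win 13 7 0xc01e03f) :=
  (chk_spec (by decide) (by decide) u13_7 w13_8 _ cb13_7_0)
theorem w13_6 : s13_6.all (Win 13 6 0x400e01f) :=
  (chk_spec (by decide) (by decide) u13_6 w13_7 _ cb13_6_0)
theorem w13_5 : s13_5.all (Win 13 5 0x600f) :=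
  (chk_spec (by decide) (by decide) u13_5 w13_6 _ cb13_5_0)
theorem w13_4 : s13_4.all (Win 13 4 0x2007) :=
  (chk_spec (by decide) (by decide) u13_4 w13_5 _ cb13_4_0)
theorem w13_3 : s13_3.all (Win 13 3 0x3) :=
  (chk_spec (by decide) (by decide) u13_3 w13_4 _ cb13_3_0)
theorem w13_2 : s13_2.all (Win 13 2 0x1) :=
  (chk_spec (by decide) (by decide) u13_2 w13_3 _ cb13_2_0)
theorem w13_1 : s13_1.all (Win 13 1 0x0) :=
  (chk_spec (by decide) (by decide) u13_1 w13_2 _ cb13_1_0)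
theorem short13 : Short 13 := short_of w13_1
theorem w15_15 : s15_15.all (Win 15 15 (2 ^ (15 * (15 / 2)) - 1)) := win_last 15
theorem w15_14 : s15_14.all (Win 15 14 0x4003801f00fe07fc3ff9fff) :=
  (chk_spec (by decide) (by decide) u15_14 w15_15 _ cb15_14_0)
theorem w15_13 : s15_13.all (Win 15 13 0x1800f007e03fc1ff8fff) :=
  (chk_spec (by decide) (by decide) u15_13 w15_14 _ cb15_13_0)
theorem w15_12 : s15_12.all (Win 15 12 0x8007003e01fc0ff87ff) :=
  (chk_spec (by decide) (by decide) u15_12 w15_13 _ cb15_12_0)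
theorem w15_11 : s15_11.all (Win 15 11 0x3001e00fc07f83ff) :=
  (chk_spec (by decide) (by decide) u15_11 w15_12 _ cb15_11_0)
theorem w15_10 : s15_10.all (Win 15 10 0x1000e007c03f81ff) :=
  (chk_spec (by decide) (by decide) u15_10 w15_11 _ cb15_10_0)
theorem w15_9 : s15_9.all (Win 15 9 0x6003c01f80ff) :=
  (chk_spec (by decide) (by decide) u15_9 w15_10 _ cb15_9_0)
theorem w15_8 : s15_8.all (Win 15 8 0x2001c00f807f) :=
  (chk_spec (by decide) (by decide) u15_8 w15_9 _ cb15_8_0)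
theorem w15_7 : s15_7.all (Win 15 7 0xc007803f) :=
  (chk_spec (by decide) (by decide) u15_7 w15_8 _ cb15_7_0)
theorem w15_6 : s15_6.all (Win 15 6 0x4003801f) :=
  (chk_spec (by decide) (by decide) u15_6 w15_7 _ cb15_6_0)
theorem w15_5 : s15_5.all (Win 15 5 0x1800f) :=
  (chk_spec (by decide) (by decide) u15_5 w15_6 _ cb15_5_0)
theorem w15_4 : s15_4.all (Win 15 4 0x8007) :=
  (chk_spec (by decide) (by decide) u15_4 w15_5 _ cb15_4_0)
theorem w15_3 : s15_3.all (Win 15 3 0x3) :=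
  (chk_spec (by decide) (by decide) u15_3 w15_4 _ cb15_3_0)
theorem w15_2 : s15_2.all (Win 15 2 0x1) :=
  (chk_spec (by decide) (by decide) u15_2 w15_3 _ cb15_2_0)
theorem w15_1 : s15_1.all (Win 15 1 0x0) :=
  (chk_spec (by decide) (by decide) u15_1 w15_2 _ cb15_1_0)
theorem short15 : Short 15 := short_of w15_1
theorem w16_16 : s16_16.all (Win 16 16 (2 ^ (16 * (16 / 2)) - 1)) := win_last 16
theorem w16_15 : s16_15.all (Win 16 15 0x3000f003f00ff03ff0fff3fff) :=
  (chk_spec (by decide) (by decide) u16_15 w16_16 _ cb16_15_0)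
theorem w16_14 : s16_14.all (Win 16 14 0x10007001f007f01ff07ff1fff) :=
  (chk_spec (by decide) (by decide) u16_14 w16_15 _ cb16_14_0)
theorem w16_13 : s16_13.all (Win 16 13 0x3000f003f00ff03ff0fff) :=
  (chk_spec (by decide) (by decide) u16_13 w16_14 _ cb16_13_0)
theorem w16_12 : s16_12.all (Win 16 12 0x10007001f007f01ff07ff) :=
  (chk_spec (by decide) (by decide) u16_12 w16_13 _ cb16_12_0)
theorem w16_11 : s16_11.all (Win 16 11 0x3000f003f00ff03ff) :=
  (chk_spec (by decide) (by decide) u16_11 w16_12 _ cb16_11_0)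
theorem w16_10 : s16_10.all (Win 16 10 0x10007001f007f01ff) :=
  (chk_spec (by decide) (by decide) u16_10 w16_11 _ cb16_10_0)
theorem w16_9 : s16_9.all (Win 16 9 0x3000f003f00ff) :=
  (chk_spec (by decide) (by decide) u16_9 w16_10 _ cb16_9_0)
theorem w16_8 : s16_8.all (Win 16 8 0x10007001f007f) :=
  (chk_spec (by decide) (by decide) u16_8 w16_9 _ cb16_8_0)
theorem w16_7 : s16_7.all (Win 16 7 0x3000f003f) :=
  (chk_spec (by decide) (by decide) u16_7 w16_8 _ cb16_7_0)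
theorem w16_6 : s16_6.all (Win 16 6 0x10007001f) :=
  (chk_spec (by decide) (by decide) u16_6 w16_7 _ cb16_6_0)
theorem w16_5 : s16_5.all (Win 16 5 0x3000f) :=
  (chk_spec (by decide) (by decide) u16_5 w16_6 _ cb16_5_0)
theorem w16_4 : s16_4.all (Win 16 4 0x10007) :=
  (chk_spec (by decide) (by decide) u16_4 w16_5 _ cb16_4_0)
theorem w16_3 : s16_3.all (Win 16 3 0x3) :=
  (chk_spec (by decide) (by decide) u16_3 w16_4 _ cb16_3_0)
theorem w16_2 : s16_2.all (Win 16 2 0x1) :=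
  (chk_spec (by decide) (by decide) u16_2 w16_3 _ cb16_2_0)
theorem w16_1 : s16_1.all (Win 16 1 0x0) :=
  (chk_spec (by decide) (by decide) u16_1 w16_2 _ cb16_1_0)
theorem short16 : Short 16 := short_of w16_1
theorem w18_18 : s18_18.all (Win 18 18 (2 ^ (18 * (18 / 2)) - 1)) := win_last 18
theorem w18_17 : s18_17.all (Win 18 17 0xc000f000fc00ff00ffc0fff0fffcffff) :=
  (chk_spec (by decide) (by decide) u18_17 w18_18 _ cb18_17_0)
theorem w18_16 : s18_16.all (Win 18 16 0x400070007c007f007fc07ff07ffc7fff) :=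
  (chk_spec (by decide) (by decide) u18_16 w18_17 _ cb18_16_0)
theorem w18_15 : s18_15.all (Win 18 15 0x30003c003f003fc03ff03ffc3fff) :=
  (all_nodea (chk_spec (by decide) (by decide) u18_15 w18_16 _ cb18_15_0)
    (chk_spec (by decide) (by decide) u18_15 w18_16 _ cb18_15_1))
theorem w18_14 : s18_14.all (Win 18 14 0x10001c001f001fc01ff01ffc1fff) :=
  (all_nodea (chk_spec (by decide) (by decide) u18_14 w18_15 _ cb18_14_0)
    (chk_spec (by decide) (by decide) u18_14 w18_15 _ cb18_14_1))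
theorem w18_13 : s18_13.all (Win 18 13 0xc000f000fc00ff00ffc0fff) :=
  (all_nodea (chk_spec (by decide) (by decide) u18_13 w18_14 _ cb18_13_0)
    (chk_spec (by decide) (by decide) u18_13 w18_14 _ cb18_13_1))
theorem w18_12 : s18_12.all (Win 18 12 0x400070007c007f007fc07ff) :=
  (chk_spec (by decide) (by decide) u18_12 w18_13 _ cb18_12_0)
theorem w18_11 : s18_11.all (Win 18 11 0x30003c003f003fc03ff) :=
  (chk_spec (by decide) (by decide) u18_11 w18_12 _ cb18_11_0)
theorem w18_10 : s18_10.all (Win 18 10 0x10001c001f001fc01ff) :=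
  (chk_spec (by decide) (by decide) u18_10 w18_11 _ cb18_10_0)
theorem w18_9 : s18_9.all (Win 18 9 0xc000f000fc00ff) :=
  (chk_spec (by decide) (by decide) u18_9 w18_10 _ cb18_9_0)
theorem w18_8 : s18_8.all (Win 18 8 0x400070007c007f) :=
  (chk_spec (by decide) (by decide) u18_8 w18_9 _ cb18_8_0)
theorem w18_7 : s18_7.all (Win 18 7 0x30003c003f) :=
  (chk_spec (by decide) (by decide) u18_7 w18_8 _ cb18_7_0)
theorem w18_6 : s18_6.all (Win 18 6 0x10001c001f) :=
  (chk_spec (by decide) (by decide) u18_6 w18_7 _ cb18_6_0)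
theorem w18_5 : s18_5.all (Win 18 5 0xc000f) :=
  (chk_spec (by decide) (by decide) u18_5 w18_6 _ cb18_5_0)
theorem w18_4 : s18_4.all (Win 18 4 0x40007) :=
  (chk_spec (by decide) (by decide) u18_4 w18_5 _ cb18_4_0)
theorem w18_3 : s18_3.all (Win 18 3 0x3) :=
  (chk_spec (by decide) (by decide) u18_3 w18_4 _ cb18_3_0)
theorem w18_2 : s18_2.all (Win 18 2 0x1) :=
  (chk_spec (by decide) (by decide) u18_2 w18_3 _ cb18_2_0)
theorem w18_1 : s18_1.all (Win 18 1 0x0) :=
  (chk_spec (by decide) (by decide) u18_1 w18_2 _ cb18_1_0)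
theorem short18 : Short 18 := short_of w18_1
theorem w19_19 : s19_19.all (Win 19 19 (2 ^ (19 * (19 / 2)) - 1)) := win_last 19
theorem w19_18 : s19_18.all (Win 19 18 0x10000e0007c003f801ff00ffe07ffc3fff9ffff) :=
  (chk_spec (by decide) (by decide) u19_18 w19_19 _ cb19_18_0)
theorem w19_17 : s19_17.all (Win 19 17 0x60003c001f800ff007fe03ffc1fff8ffff) :=
  (all_nodea (chk_spec (by decide) (by decide) u19_17 w19_18 _ cb19_17_0)
    (chk_spec (by decide) (by decide) u19_17 w19_18 _ cb19_17_1))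
theorem w19_16 : s19_16.all (Win 19 16 0x20001c000f8007f003fe01ffc0fff87fff) :=
  (all_nodea (all_nodea (chk_spec (by decide) (by decide) u19_16 w19_17 _ cb19_16_0)
    (chk_spec (by decide) (by decide) u19_16 w19_17 _ cb19_16_1))
    (all_nodea (chk_spec (by decide) (by decide) u19_16 w19_17 _ cb19_16_2)
    (chk_spec (by decide) (by decide) u19_16 w19_17 _ cb19_16_3)))
theorem w19_15 : s19_15.all (Win 19 15 0xc00078003f001fe00ffc07ff83fff) :=
  (all_nodea (all_nodea (chk_spec (by decide) (by decide) u19_15 w19_16 _ cb19_15_0)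
    (chk_spec (by decide) (by decide) u19_15 w19_16 _ cb19_15_1))
    (all_nodea (chk_spec (by decide) (by decide) u19_15 w19_16 _ cb19_15_2)
    (chk_spec (by decide) (by decide) u19_15 w19_16 _ cb19_15_3)))
theorem w19_14 : s19_14.all (Win 19 14 0x400038001f000fe007fc03ff81fff) :=
  (all_nodea (all_nodea (chk_spec (by decide) (by decide) u19_14 w19_15 _ cb19_14_0)
    (chk_spec (by decide) (by decide) u19_14 w19_15 _ cb19_14_1))
    (all_nodea (chk_spec (by decide) (by decide) u19_14 w19_15 _ cb19_14_2)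
    (chk_spec (by decide) (by decide) u19_14 w19_15 _ cb19_14_3)))
theorem w19_13 : s19_13.all (Win 19 13 0x18000f0007e003fc01ff80fff) :=
  (all_nodea (all_nodea (chk_spec (by decide) (by decide) u19_13 w19_14 _ cb19_13_0)
    (chk_spec (by decide) (by decide) u19_13 w19_14 _ cb19_13_1))
    (all_nodea (chk_spec (by decide) (by decide) u19_13 w19_14 _ cb19_13_2)
    (chk_spec (by decide) (by decide) u19_13 w19_14 _ cb19_13_3)))
theorem w19_12 : s19_12.all (Win 19 12 0x800070003e001fc00ff807ff) :=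
  (chk_spec (by decide) (by decide) u19_12 w19_13 _ cb19_12_0)
theorem w19_11 : s19_11.all (Win 19 11 0x30001e000fc007f803ff) :=
  (chk_spec (by decide) (by decide) u19_11 w19_12 _ cb19_11_0)
theorem w19_10 : s19_10.all (Win 19 10 0x10000e0007c003f801ff) :=
  (chk_spec (by decide) (by decide) u19_10 w19_11 _ cb19_10_0)
theorem w19_9 : s19_9.all (Win 19 9 0x60003c001f800ff) :=
  (chk_spec (by decide) (by decide) u19_9 w19_10 _ cb19_9_0)
theorem w19_8 : s19_8.all (Win 19 8 0x20001c000f8007f) :=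
  (chk_spec (by decide) (by decide) u19_8 w19_9 _ cb19_8_0)
theorem w19_7 : s19_7.all (Win 19 7 0xc00078003f) :=
  (chk_spec (by decide) (by decide) u19_7 w19_8 _ cb19_7_0)
theorem w19_6 : s19_6.all (Win 19 6 0x400038001f) :=
  (chk_spec (by decide) (by decide) u19_6 w19_7 _ cb19_6_0)
theorem w19_5 : s19_5.all (Win 19 5 0x18000f) :=
  (chk_spec (by decide) (by decide) u19_5 w19_6 _ cb19_5_0)
theorem w19_4 : s19_4.all (Win 19 4 0x80007) :=
  (chk_spec (by decide) (by decide) u19_4 w19_5 _ cb19_4_0)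
theorem w19_3 : s19_3.all (Win 19 3 0x3) :=
  (chk_spec (by decide) (by decide) u19_3 w19_4 _ cb19_3_0)
theorem w19_2 : s19_2.all (Win 19 2 0x1) :=
  (chk_spec (by decide) (by decide) u19_2 w19_3 _ cb19_2_0)
theorem w19_1 : s19_1.all (Win 19 1 0x0) :=
  (chk_spec (by decide) (by decide) u19_1 w19_2 _ cb19_1_0)
theorem short19 : Short 19 := short_of w19_1

end

end Pool.Agent.Work.MP_7cb3ca_co.Sm.D
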